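import Pool.Agent.R768.LCP.Fin

/-!
# The closure of `P` need not act freely on the non-flat factor of an LCP manifold

The definitions (Riemannian metrics on `ℝ^m`, irreducible holonomy, LCP manifolds, `P` and its
closure in `Sim(N)`) are in `Pool.Agent.R768.LCP.Defs`.

The example: `N = ℝ^3` with coordinates `(y, r, w)` and the metric
`e^{4r} dy² + e^{2r} (dr² + dw²)`, and `Γ` consists of the transformations
`(x; y, r, w) ↦ (μ^k x + a + b√3; μ^{-k} y + a - b√3, r + k log μ, ± w + e)` of `ℝ × N` with
`μ = 2 + √3`, `k, a, b, e ∈ ℤ` and the sign `(-1)^{a+b}`. The closure of `P` contains the reflection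
`(y, r, w) ↦ (y, r, -w)`.
-/

set_option autoImplicit false

namespace Pool.Agent.Results.MP_d802ba_gt.ClosureNotFree

open Pool.Agent.R768.LCP

/-- There are an LCP manifold (with `q = 1` and `N` diffeomorphic to `ℝ^3`) and a similarity
`p ≠ id` of `N` in the closure of `P` in `Sim(N)` which fixes a point of `N`. -/
theorem result : ∃ L : LCPManifold 1 3, ∃ p ∈ L.Pbar, p ≠ 1 ∧ ∃ y : V 3, p y = y :=
  ⟨L0, refl, refl_mem, refl_ne_one, 0, refl_fixed⟩

end Pool.Agent.Results.MP_d802ba_gt.ClosureNotFree
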